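import Pool.Agent.Q66.RX.Stm

/-!
# Locally null functions which are integrable have integral zero (RX, PKZ)
-/

set_option autoImplicit false

namespace Pool.Agent.Q39.RX

open Pool.Agent.Q66.RX MeasureTheory Filter Topology Set
open scoped ENNReal

/-- a function which vanishes almost everywhere on the translates of a neighbourhood of one vanishes
almost everywhere on every compact set -/
theorem ae_compact {Γ : Type} [CommGroup Γ] [TopologicalSpace Γ] [IsTopologicalGroup Γ]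
    [MeasurableSpace Γ] {ν : Measure Γ} {u : Γ → ℝ} {O : Set Γ} (hO : O ∈ 𝓝 (1 : Γ))
    (h : ∀ γ₀ : Γ, ∀ᵐ γ ∂ν, γ * γ₀⁻¹ ∈ O → u γ = 0) {K : Set Γ} (hK : IsCompact K) :
    ∀ᵐ γ ∂ν, γ ∈ K → u γ = 0 := by
  have hnh : ∀ γ₀ ∈ K, {γ : Γ | γ * γ₀⁻¹ ∈ O} ∈ 𝓝 γ₀ := by
    intro γ₀ _
    have hc : ContinuousAt (fun γ : Γ => γ * γ₀⁻¹) γ₀ :=
      (continuous_id.mul continuous_const).continuousAt
    apply hc.preimage_mem_nhds
    simpa using hO
  obtain ⟨t, -, ht⟩ := hK.elim_nhds_subcover _ hnh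
  have h1 : ∀ᵐ γ ∂ν, ∀ γ₀ ∈ t, γ * γ₀⁻¹ ∈ O → u γ = 0 :=
    (ae_ball_iff t.countable_toSet).2 fun γ₀ _ => h γ₀
  filter_upwards [h1] with γ hγ hγK
  obtain ⟨γ₀, hγ₀, hm⟩ := mem_iUnion₂.1 (ht hγK)
  exact hγ γ₀ hγ₀ hm

theorem t_PKZ : S_PKZ := by
  intro Γ _ _ _ _ _ _ _ ν _ _ u hu hu0 O hO h
  have hv := hu.1.ae_eq_mk
  have hvi : Integrable (hu.1.mk u) ν := hu.congr hv
  have hvm : StronglyMeasurable (hu.1.mk u) := hu.1.stronglyMeasurable_mk
  have key : ∀ n : ℕ, ν {γ | (1 : ℝ) / (n + 1) < hu.1.mk u γ} = 0 := by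
    intro n
    have hn : (0 : ℝ) < 1 / (n + 1) := by positivity
    have hm : MeasurableSet {γ | (1 : ℝ) / (n + 1) < hu.1.mk u γ} :=
      measurableSet_lt measurable_const hvm.measurable
    have hf : ν {γ | (1 : ℝ) / (n + 1) < hu.1.mk u γ} ≠ ∞ := (hvi.measure_gt_lt_top hn).ne
    rw [hm.measure_eq_iSup_isCompact_of_ne_top hf]
    simp only [ENNReal.iSup_eq_zero]
    intro K hKA hK
    have h1 := ae_compact hO h hK
    have h2 : ∀ᵐ γ ∂ν, γ ∉ K := by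
      filter_upwards [h1, hv] with γ h3 h4 h5
      have h6 := h3 h5
      have h7 : (1 : ℝ) / (n + 1) < hu.1.mk u γ := hKA h5
      rw [← h4, h6] at h7
      exact absurd h7 (not_lt.2 hn.le)
    exact measure_eq_zero_iff_ae_notMem.2 h2
  have hle : ∀ᵐ γ ∂ν, hu.1.mk u γ ≤ 0 := by
    have h1 : ∀ᵐ γ ∂ν, ∀ n : ℕ, γ ∉ {γ | (1 : ℝ) / (n + 1) < hu.1.mk u γ} :=
      ae_all_iff.2 fun n => measure_eq_zero_iff_ae_notMem.1 (key n)
    filter_upwards [h1] with γ hγ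
    by_contra hpos
    push Not at hpos
    obtain ⟨n, hn⟩ := exists_nat_one_div_lt hpos
    exact hγ n hn
  have h0 : u =ᵐ[ν] 0 := by
    filter_upwards [hle, hv] with γ h1 h2
    rw [← h2] at h1
    exact le_antisymm h1 (hu0 γ)
  rw [integral_congr_ae h0]
  simp

end Pool.Agent.Q39.RX
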